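import Mathlib
import Pool.Agent.H.MP_75c9b5_nt.B

namespace Pool.Agent.Results.MP_75c9b5_nt.Yes

open NumberField Pool.Agent.H.MP_75c9b5_nt

/-- a vanishing unit sum of length `k` -/
def Vanishing (K : Type) [Field K] {k : ℕ} (ε : Fin k → (𝓞 K)ˣ) : Prop :=
  ∑ i, (ε i : 𝓞 K) = 0

/-- no proper vanishing subsum -/
def NoProper (K : Type) [Field K] {k : ℕ} (ε : Fin k → (𝓞 K)ˣ) : Prop :=
  ∀ I : Finset (Fin k), I.Nonempty → I ≠ Finset.univ → ∑ i ∈ I, (ε i : 𝓞 K) ≠ 0

/-- least odd `k ≥ 3` with a vanishing unit sum of length `k` (`⊤` if none) -/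
noncomputable def od (K : Type) [Field K] : ℕ∞ :=
  sInf {n : ℕ∞ | ∃ k : ℕ, n = k ∧ Odd k ∧ 3 ≤ k ∧ ∃ ε : Fin k → (𝓞 K)ˣ, Vanishing K ε}

/-- least even `k ≥ 4` with a vanishing unit sum of length `k` without proper vanishing subsum
(`⊤` if none) -/
noncomputable def ev (K : Type) [Field K] : ℕ∞ :=
  sInf {n : ℕ∞ | ∃ k : ℕ, n = k ∧ Even k ∧ 4 ≤ k ∧
    ∃ ε : Fin k → (𝓞 K)ˣ, Vanishing K ε ∧ NoProper K ε}

noncomputable def ell (K : Type) [Field K] : ℕ∞ := min (od K) (ev K)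

theorem main (N : ℕ) (hN : 8 ≤ N) (he : N % 2 = 0) :
    ∃ (K : Type) (_ : Field K) (_ : NumberField K), ell K = ((N + 2 : ℕ) : ℕ∞) := by
  classical
  obtain ⟨K, iF, iN, σ, ρ, a, b, hab, hle, h1, hb, hc, hall⟩ := exists_field N hN he
  refine ⟨K, iF, iN, ?_⟩
  have hsum : ∀ {k : ℕ} (ε : Fin k → (𝓞 K)ˣ) (I : Finset (Fin k)),
      ∑ i ∈ I, (ε i : 𝓞 K) = 0 ↔ ∑ i ∈ I, sv σ (ε i) = 0 := by
    intro k ε I
    have e : ∑ i ∈ I, sv σ (ε i) = σ (algebraMap (𝓞 K) K (∑ i ∈ I, (ε i : 𝓞 K))) := by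
      simp only [map_sum]; rfl
    rw [e, map_eq_zero, map_eq_zero_iff _ (RingOfIntegers.coe_injective)]
  have hd := dvd_eval hle (by omega) hc
  rw [hab] at hd
  have low : ∀ (k : ℕ) (ε : Fin k → (𝓞 K)ˣ), 3 ≤ k → Vanishing K ε → (Odd k ∨ NoProper K ε) →
      N + 2 ≤ k := by
    intro k ε hk hv H
    refine lower (b := b) (by omega) h1 hb hd (fun i => sv σ (ε i)) (fun i => hall (ε i))
      ((hsum ε _).1 hv) (by omega) (H.imp id ?_)
    intro H i j hij h0
    refine H {i, j} (by simp) ?_ ((hsum ε _).2 (by rw [Finset.sum_pair hij]; exact h0))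
    intro hu
    have := congrArg Finset.card hu
    rw [Finset.card_pair hij, Finset.card_univ, Fintype.card_fin] at this
    omega
  let F : ℕ → (𝓞 K)ˣ := fun i =>
    if i = 0 then ρ ^ 3 else if i ≤ b then -ρ ^ 2 else if i ≤ a + b then -ρ else -1
  have s1 : sv σ 1 = 1 := by simp [sv]
  have hneg : ∀ i, i ≠ 0 → sv σ (F i) < 0 := by
    intro i hi
    simp only [F, if_neg hi]
    split_ifs
    · rw [sv_neg, sv_pow]; have : 0 < sv σ ρ ^ 2 := by positivity
      linarith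
    · rw [sv_neg]; linarith
    · rw [sv_neg, s1]; norm_num
  have htot : ∑ i : Fin (N + 2), sv σ (F i) = 0 := by
    rw [Fin.sum_univ_eq_sum_range (fun i => sv σ (F i)), show N + 2 = 1 + b + a + 1 by omega,
      Finset.sum_range_succ, Finset.sum_range_add, Finset.sum_range_add, Finset.sum_range_one]
    have e1 : ∑ i ∈ Finset.range b, sv σ (F (1 + i)) = ∑ _i ∈ Finset.range b, -sv σ ρ ^ 2 := by
      refine Finset.sum_congr rfl fun i hi => ?_
      have := Finset.mem_range.1 hi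
      simp only [F]
      rw [if_neg (by omega), if_pos (by omega), sv_neg, sv_pow]
    have e2 : ∑ i ∈ Finset.range a, sv σ (F (1 + b + i)) = ∑ _i ∈ Finset.range a, -sv σ ρ := by
      refine Finset.sum_congr rfl fun i hi => ?_
      have := Finset.mem_range.1 hi
      simp only [F]
      rw [if_neg (by omega), if_neg (by omega), if_pos (by omega), sv_neg]
    have e3 : sv σ (F (1 + b + a)) = -1 := by
      simp only [F]
      rw [if_neg (by omega), if_neg (by omega), if_neg (by omega), sv_neg, s1]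
    have e0 : sv σ (F 0) = sv σ ρ ^ 3 := by
      simp only [F]
      rw [if_pos trivial, sv_pow]
    rw [e0, e1, e2, e3]
    simp only [Finset.sum_const, Finset.card_range, nsmul_eq_mul]
    linarith
  have negs : ∀ I : Finset (Fin (N + 2)), I.Nonempty → (0 : Fin (N + 2)) ∉ I →
      ∑ i ∈ I, sv σ (F i) < 0 := by
    intro I hI h0
    refine Finset.sum_neg (fun i hi => hneg i ?_) hI
    intro h
    exact h0 (by rwa [show i = 0 from Fin.ext h] at hi)
  have hnp : NoProper K (fun i : Fin (N + 2) => F i) := by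
    intro I hI hne h0
    have h0' := (hsum _ I).1 h0
    by_cases hz : (0 : Fin (N + 2)) ∈ I
    · have q := negs Iᶜ (by rwa [Finset.nonempty_iff_ne_empty, Ne, Finset.compl_eq_empty_iff])
        (by simpa using hz)
      have := Finset.sum_add_sum_compl I (fun i : Fin (N + 2) => sv σ (F i))
      rw [htot, h0'] at this
      linarith
    · exact (negs I hI hz).ne h0'
  apply le_antisymm
  · refine min_le_of_right_le (sInf_le ⟨N + 2, rfl, ?_, by omega, _, (hsum _ _).2 htot, hnp⟩)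
    rw [Nat.even_iff]; omega
  · refine le_min (le_sInf ?_) (le_sInf ?_)
    · rintro _ ⟨k, rfl, ho, hk, ε, hv⟩
      exact_mod_cast low k ε hk hv (Or.inl ho)
    · rintro _ ⟨k, rfl, -, hk, ε, hv, hp⟩
      exact_mod_cast low k ε (by omega) hv (Or.inr hp)

theorem result (t : ℤ) (h0 : t ≠ 0) (h1 : t ≠ 1) :
    ∃ (K : Type) (_ : Field K) (_ : NumberField K) (k : ℕ),
      (k : ℤ) = 4 * t ^ 4 - 4 * t + 2 ∧ ell K = (k : ℕ∞) := by
  have h8 : 8 ≤ 4 * t ^ 4 - 4 * t := by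
    rcases lt_or_gt_of_ne h0 with h | h
    · have : 1 ≤ t ^ 2 := by nlinarith
      nlinarith
    · have h2 : 2 ≤ t := by omega
      have : 8 ≤ t ^ 3 := by nlinarith [pow_le_pow_left₀ (by norm_num) h2 3]
      nlinarith
  obtain ⟨N, hN⟩ : ∃ N : ℕ, (N : ℤ) = 4 * t ^ 4 - 4 * t := ⟨_, Int.toNat_of_nonneg (by omega)⟩
  obtain ⟨K, iF, iN, h⟩ := main N (by omega) (by omega)
  exact ⟨K, iF, iN, N + 2, by push_cast; omega, h⟩

end Pool.Agent.Results.MP_75c9b5_nt.Yes
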